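import Pool.Agent.helper78.EQ.Main2

/-!
# MP_4467b5_nt (density hypothesis): equivalent forms, also in short intervals

`X = T + H + 2` everywhere. `Bd θ b F` (file `Pool.Agent.helper78.EQ.Defs`) says: for every `ε > 0`
there is `C > 0` with `F ε σ T H ≤ C X^ε H^(b σ)` for all `1/2 ≤ σ ≤ 1`, `T ≥ 0`, `H ≥ 1` with
`T^θ ≤ H`. The quantities `F` are

* `Zer` : the number of zeros with multiplicity, real part `≥ σ`, imaginary part in `(T, T + H]`;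
* `Lw` : the number of windows `[k, k+1]` meeting `[T, T + H]` with a value `|ζ| ≥ X^ε` right of `σ`;
* `Lv` : the measure of all `t` in `[T, T + H]` with `|ζ(σ + i t)| ≥ X^ε`;
* `Cr` : the number of windows with at least `ε log X` distinct zeros with real part `≥ σ`;
* `Sm a A` : the measure of all `t` in `[T, T + H]` with
  `|∑ a n e^(-n/N) n^(-i t)| ≥ N^σ X^ε` for some `1 ≤ N ≤ X^A`,

with the coefficients `c1 = 1`, `cm = μ` (Möbius), `cL = Λ` (von Mangoldt).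
-/

set_option autoImplicit false

open Set

namespace Pool.Agent.helper56.Parked.EquivalentForms

open Pool.Agent.EQ

theorem result :
    (∀ (θ : ℝ) (b : ℝ → ℝ), 0 ≤ θ → ContinuousOn b (Icc (1 / 2) 1) → AntitoneOn b (Icc (1 / 2) 1) →
      1 ≤ b (1 / 2) → 0 ≤ b 1 →
      List.TFAE [Bd θ b Zer, ∀ A : ℝ, 1 ≤ A → Bd θ b (Sm cm A), ∀ A : ℝ, 1 ≤ A → Bd θ b (Sm cL A)] ∧
      List.TFAE [Bd θ b Lv, Bd θ b Lw, Bd θ b (Sm c1 1), ∀ A : ℝ, 1 ≤ A → Bd θ b (Sm c1 A)] ∧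
      (Bd θ b Zer → Bd θ b Lv) ∧
      ((∀ σ : ℝ, 1 / 2 ≤ σ → σ ≤ 1 → 2 * (1 - σ) ≤ b σ) →
        List.TFAE [Bd θ b Zer, Bd θ b Lv, Bd θ b Cr])) ∧
    (DH ↔ Bd 1 (fun σ => 2 * (1 - σ)) Zer) :=
  ⟨fun _ _ hθ hc ha hh ho => forms hθ ⟨hc, ha, hh, ho⟩, DHF⟩

end Pool.Agent.helper56.Parked.EquivalentForms
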